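import Mathlib
import Pool.Agent.H510R3.PQ2

set_option autoImplicit false

/-!
# There is no `{p, q}`-Diophantine quadruple, for any two distinct primes `p`, `q`

No Wieferich condition and no congruence condition on `p`, `q` is assumed.
-/

namespace Pool.Agent.Results.MP_7eb8f3_nt.AllPrimePairs

/-- `T` is a finite set of (distinct) positive integers such that every prime divisor of
`a * b + 1`, for any two different elements `a`, `b` of `T`, belongs to `S` -/
def IsDiophantine (S : Set ℕ) (T : Finset ℕ) : Prop :=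
  (∀ a ∈ T, 0 < a) ∧
    ∀ a ∈ T, ∀ b ∈ T, a ≠ b → ∀ r : ℕ, r.Prime → r ∣ a * b + 1 → r ∈ S

theorem two_primes {p q n : ℕ} (hp : p.Prime) (hq : q.Prime) (hpq : p ≠ q) (hn : n ≠ 0)
    (h : ∀ r : ℕ, r.Prime → r ∣ n → r ∈ ({p, q} : Set ℕ)) : ∃ i j : ℕ, n = p ^ i * q ^ j := by
  refine ⟨n.factorization p, n.factorization q, ?_⟩
  have hsub : n.primeFactors ⊆ ({p, q} : Finset ℕ) := by
    intro r hr
    have h1 := h r (Nat.prime_of_mem_primeFactors hr) (Nat.dvd_of_mem_primeFactors hr)
    simpa using h1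
  have h2 : n.factorization.support ⊆ ({p, q} : Finset ℕ) := by
    rwa [Nat.support_factorization]
  have h3 := Nat.prod_factorization_pow_eq_self hn
  rw [Finsupp.prod_of_support_subset _ h2 _ (by simp), Finset.prod_pair hpq] at h3
  exact h3.symm

/-- **There is no `{p, q}`-Diophantine quadruple for any two distinct primes `p`, `q`.** -/
theorem result : ∀ p q : ℕ, p.Prime → q.Prime → p ≠ q →
    ¬ ∃ T : Finset ℕ, T.card = 4 ∧ IsDiophantine {p, q} T := by
  rintro p q hp hq hpq ⟨T, hT, hpos, hdiv⟩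
  -- order the elements
  have hmem : ∀ i, T.orderEmbOfFin hT i ∈ T := fun i => Finset.orderEmbOfFin_mem T hT i
  set f := T.orderEmbOfFin hT with hf
  have hlt : ∀ i j : Fin 4, i < j → f i < f j := fun i j hij => (f.strictMono hij)
  have key : ∀ i j : Fin 4, i < j → ∃ u v : ℕ, f i * f j + 1 = p ^ u * q ^ v := by
    intro i j hij
    exact two_primes hp hq hpq (by omega)
      (hdiv (f i) (hmem i) (f j) (hmem j) (hlt i j hij).ne)
  exact Pool.Agent.H510R3.PQ.no_quadruple hp hq hpq (hpos _ (hmem 0))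
    (hlt 0 1 (by decide)) (hlt 1 2 (by decide)) (hlt 2 3 (by decide))
    (key 0 1 (by decide)) (key 0 2 (by decide)) (key 0 3 (by decide))
    (key 1 2 (by decide)) (key 1 3 (by decide)) (key 2 3 (by decide))

end Pool.Agent.Results.MP_7eb8f3_nt.AllPrimePairs
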